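import Pool.Agent.helper42.NS.Spec

/-!
# Row nos:MOM (MP_abccb5_co): the characteristic polynomials determine the moments
-/

set_option autoImplicit false

namespace Pool.Agent.helper42.NS

open Polynomial Matrix

theorem MOM_ind_emp {m : ℕ} : ind (emp : Fin m → Bool) = 0 := by
  funext j
  simp [ind, emp]

theorem MOM_cons {m : ℕ} : (Fin.cons 0 (0 : Fin m → ℤ) : Fin (m + 1) → ℤ) = 0 := by
  funext j
  refine Fin.cases ?_ ?_ j
  · rfl
  · intro i
    rfl

theorem MOM_PP0 {m : ℕ} (H : Matrix (Fin m) (Fin m) ℤ) (w : Fin m → ℤ) : PP H 0 w = 0 := by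
  unfold PP
  have h1 : (fun i => C ((0 : Fin m → ℤ) i)) = (0 : Fin m → ℤ[X]) := by
    funext i
    simp
  rw [h1, zero_dotProduct]

theorem MOM_bord0 (h1 : BOR_stmt) {m : ℕ} (H : Matrix (Fin m) (Fin m) ℤ) :
    (bord H 0).charpoly = X * H.charpoly := by
  rw [h1, MOM_PP0, sub_zero]

theorem MOM_dbl (h1 : BOR_stmt) {m : ℕ} (H : Matrix (Fin m) (Fin m) ℤ) (b : Fin m → Bool) :
    (dbl H b emp).charpoly = X * (bord H (ind b)).charpoly := by
  unfold dbl
  rw [MOM_ind_emp, MOM_cons, MOM_bord0 h1]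

theorem MOM_pow {m : ℕ} (H : Matrix (Fin m) (Fin m) ℤ) (hH : ∀ i j, 0 ≤ H i j) (l : ℕ) :
    ∀ i j, 0 ≤ (H ^ l) i j := by
  induction l with
  | zero =>
    intro i j
    rw [pow_zero, Matrix.one_apply]
    split_ifs <;> norm_num
  | succ l ih =>
    intro i j
    rw [pow_succ, Matrix.mul_apply]
    exact Finset.sum_nonneg fun a _ => mul_nonneg (ih i a) (hH a j)

theorem MOM_nonneg {m : ℕ} (H : Matrix (Fin m) (Fin m) ℤ) (hH : IsGr H) (b c : Fin m → Bool) (l : ℕ) :
    0 ≤ mom H b c l := by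
  have h0 : ∀ i j, 0 ≤ H i j := by
    intro i j
    rcases hH.1 i j with h | h <;> rw [h]
    exact zero_le_one
  have hi : ∀ (d : Fin m → Bool) (i : Fin m), 0 ≤ ind d i := by
    intro d i
    unfold ind
    split_ifs <;> norm_num
  unfold mom
  rw [dotProduct]
  refine Finset.sum_nonneg fun i _ => mul_nonneg (hi b i) ?_
  rw [Matrix.mulVec, dotProduct]
  exact Finset.sum_nonneg fun j _ => mul_nonneg (MOM_pow H h0 l i j) (hi c j)

theorem MOM (h1 : BOR_stmt) (h2 : JAC_stmt) (h3 : MO2_stmt) : MOM_stmt := by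
  intro m H H' b c b' c' hH hH' e1 e2 e3 e4 l
  have hX : (X : ℤ[X]) ≠ 0 := X_ne_zero
  have f1 : H.charpoly = H'.charpoly := by
    rw [MOM_dbl h1, MOM_dbl h1, MOM_ind_emp, MOM_bord0 h1, MOM_bord0 h1] at e1
    exact mul_left_cancel₀ hX (mul_left_cancel₀ hX e1)
  have f2 : (bord H (ind b)).charpoly = (bord H' (ind b')).charpoly := by
    rw [MOM_dbl h1, MOM_dbl h1] at e2
    exact mul_left_cancel₀ hX e2
  have f3 : (bord H (ind c)).charpoly = (bord H' (ind c')).charpoly := by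
    rw [MOM_dbl h1, MOM_dbl h1] at e3
    exact mul_left_cancel₀ hX e3
  have g1 := h2 m H b c hH.2.2
  have g2 := h2 m H' b' c' hH'.2.2
  rw [f1, f2, f3, e4, g2] at g1
  have g3 : PP H (ind b) (ind c) ^ 2 = PP H' (ind b') (ind c') ^ 2 := by
    linear_combination g1
  rcases sq_eq_sq_iff_eq_or_eq_neg.mp g3 with g4 | g4
  · have g5 := h3 m H H' (ind b) (ind c) (ind b') (ind c') 1 f1 (by rw [g4, C_1, one_mul]) l
    rw [one_mul] at g5
    exact g5
  · have g5 := h3 m H H' (ind b) (ind c) (ind b') (ind c') (-1) f1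
      (by rw [g4, C_neg, C_1, neg_mul, one_mul]) l
    have g6 : mom H b c l = -1 * mom H' b' c' l := g5
    have g7 := MOM_nonneg H hH b c l
    have g8 := MOM_nonneg H' hH' b' c' l
    linarith

end Pool.Agent.helper42.NS
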